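import Pool.Agent.helper51.QS.SpecA
import Pool.Agent.helper51.QS.Lib

/-! # MP_74cfa5, row FFL -/

set_option autoImplicit false

namespace Pool.Agent.QS

open Pool.Agent.PC

universe u

/-- products with a series of high order -/
theorem FFL_mul {k : Type u} [Field k] {n : ℕ} (N : ℕ) (F u : MvPowerSeries (Fin n) k)
    (hF : ∀ α : Fin n →₀ ℕ, α.degree < N → MvPowerSeries.coeff α F = 0) :
    ∀ α : Fin n →₀ ℕ, α.degree < N → MvPowerSeries.coeff α (u * F) = 0 := by
  classical
  intro α hα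
  rw [MvPowerSeries.coeff_mul]
  apply Finset.sum_eq_zero
  intro p hp
  have h1 : p.1 + p.2 = α := Finset.HasAntidiagonal.mem_antidiagonal.1 hp
  have h2 : p.2.degree ≤ α.degree := by
    rw [← h1, map_add]
    exact Nat.le_add_left _ _
  rw [hF p.2 (lt_of_le_of_lt h2 hα), mul_zero]

theorem FFL_app {k A : Type u} [Field k] [CommRing A] [Algebra k A] {n : ℕ} {m : Ideal A}
    {y : Fin n → A} {φ : A →ₐ[k] MvPowerSeries (Fin n) k} (hT : Taylor m y φ) (J : Ideal A)
    (N : ℕ) (F : MvPowerSeries (Fin n) k) (hF : F ∈ J.map φ) :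
    ∃ x ∈ J, ∀ α : Fin n →₀ ℕ, α.degree < N → MvPowerSeries.coeff α (F - φ x) = 0 := by
  unfold Ideal.map at hF
  induction hF using Submodule.span_induction with
  | mem F hF =>
    obtain ⟨x, hx, rfl⟩ := hF
    refine ⟨x, hx, fun α _ => ?_⟩
    rw [sub_self, map_zero]
  | zero =>
    refine ⟨0, J.zero_mem, fun α _ => ?_⟩
    rw [map_zero, sub_self, map_zero]
  | add F G _ _ hF hG =>
    obtain ⟨x, hx, h1⟩ := hF
    obtain ⟨z, hz, h2⟩ := hG
    refine ⟨x + z, J.add_mem hx hz, fun α hα => ?_⟩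
    have h3 : F + G - φ (x + z) = (F - φ x) + (G - φ z) := by
      rw [map_add]
      ring
    rw [h3, map_add, h1 α hα, h2 α hα, add_zero]
  | smul u G _ hG =>
    obtain ⟨x, hx, h1⟩ := hG
    set g : MvPolynomial (Fin n) k := MvPowerSeries.truncTotal N u with hg
    refine ⟨MvPolynomial.aeval y g * x, J.mul_mem_left _ hx, fun α hα => ?_⟩
    have h3 : u • G - φ (MvPolynomial.aeval y g * x) =
        u * (G - φ x) + φ x * (u - (g : MvPowerSeries (Fin n) k)) := by
      rw [map_mul, Lib_aeval hT, smul_eq_mul]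
      ring
    rw [h3, map_add, FFL_mul N _ u h1 α hα, FFL_mul N _ (φ x) (fun β hβ => ?_) α hα, add_zero]
    rw [map_sub, MvPolynomial.coeff_coe, hg, MvPowerSeries.coeff_truncTotal _ hβ, sub_self]

theorem FFL : FFL_stmt.{u} := by
  intro k A _ _ _ _ n m hm y φ hT J b hb
  have h1 : (Ideal.Quotient.mk J b) ∈ (⨅ i : ℕ, m ^ i • ⊤ : Submodule A (A ⧸ J)) := by
    rw [Submodule.mem_iInf]
    intro N
    obtain ⟨x, hx, h2⟩ := FFL_app hT J N (φ b) hb
    have h3 : b - x ∈ m ^ N := by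
      rw [hT.2 N]
      intro α hα
      rw [map_sub]
      exact h2 α hα
    have h4 : Ideal.Quotient.mk J b = (b - x) • (1 : A ⧸ J) := by
      rw [Algebra.smul_def, mul_one, Ideal.Quotient.algebraMap_eq, map_sub,
        Ideal.Quotient.eq_zero_iff_mem.2 hx, sub_zero]
    rw [h4]
    exact Submodule.smul_mem_smul h3 trivial
  rw [Ideal.mem_iInf_smul_pow_eq_bot_iff] at h1
  obtain ⟨r, hr⟩ := h1
  refine ⟨1 - (r : A), fun h => ?_, ?_⟩
  · apply hm.ne_top
    rw [Ideal.eq_top_iff_one]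
    have := m.add_mem h r.2
    rwa [sub_add_cancel] at this
  · rw [← Ideal.Quotient.eq_zero_iff_mem, map_mul, map_sub, map_one, sub_mul, one_mul]
    rw [Algebra.smul_def, Ideal.Quotient.algebraMap_eq] at hr
    rw [hr, sub_self]

end Pool.Agent.QS
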