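import Pool.Agent.helper51.QS.SpecB

/-! # MP_74cfa5, row INV -/

set_option autoImplicit false

namespace Pool.Agent.QS

open Pool.Agent.PC

universe u

theorem INV : INV_stmt.{u} := by
  intro k R A G _ _ _ _ _ _ _ _ _ _ _ _ _ _ _
  have hinj : Function.Injective (algebraMap R A) := FaithfulSMul.algebraMap_injective R A
  have hint : Algebra.IsIntegral R A := Algebra.IsInvariant.isIntegral R A G
  refine ⟨fun hft => ?_, hint, fun hA => ?_⟩
  · have hft' : Algebra.FiniteType R A := Algebra.FiniteType.of_restrictScalars_finiteType k R A
    have hfin : Module.Finite R A := Algebra.IsIntegral.finite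
    exact ⟨fg_of_fg_of_fg k R A Algebra.FiniteType.out hfin.fg_top hinj⟩
  · rw [isIntegrallyClosed_iff (FractionRing R)]
    intro x hx
    obtain ⟨a, b, rfl⟩ := IsLocalization.exists_mk'_eq (nonZeroDivisors R) x
    set io : FractionRing R →+* FractionRing A := IsFractionRing.map hinj with hio
    have hioc : ∀ r : R, io (algebraMap R (FractionRing R) r) =
        algebraMap A (FractionRing A) (algebraMap R A r) := by
      intro r
      rw [hio]
      exact IsLocalization.map_eq _ r
    have h1 : IsIntegral A (io (IsLocalization.mk' (FractionRing R) a b)) := by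
      refine IsIntegral.map_of_comp_eq (algebraMap R A) io ?_ hx
      ext r
      exact (hioc r).symm
    obtain ⟨c, hc⟩ := (isIntegrallyClosed_iff (FractionRing A)).1 hA h1
    have hb0 : (b : R) ≠ 0 := nonZeroDivisors.ne_zero b.2
    have hb1 : algebraMap R A (b : R) ≠ 0 := fun h => hb0 (hinj (by rw [h, map_zero]))
    have h2 : IsLocalization.mk' (FractionRing R) a b * algebraMap R (FractionRing R) b =
        algebraMap R (FractionRing R) a := IsLocalization.mk'_spec _ _ _
    have h3 : algebraMap R A a = c * algebraMap R A (b : R) := by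
      apply IsFractionRing.injective A (FractionRing A)
      rw [map_mul, ← hioc, ← hioc, ← h2, map_mul, hc]
    have h4 : ∀ g : G, g • c = c := by
      intro g
      have h5 := congrArg (fun z => g • z) h3
      simp only [smul_mul', smul_algebraMap] at h5
      rw [h3] at h5
      exact (mul_right_cancel₀ hb1 h5).symm
    obtain ⟨r, hr⟩ := Algebra.IsInvariant.isInvariant (A := R) (G := G) c h4
    refine ⟨r, ?_⟩
    rw [IsLocalization.eq_mk'_iff_mul_eq, ← map_mul]
    congr 1
    apply hinj
    rw [map_mul, hr, h3]

end Pool.Agent.QS
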