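import Pool.Agent.helper51.QS.SpecB

/-! # MP_74cfa5, row NRA -/

set_option autoImplicit false

namespace Pool.Agent.QS

open Pool.Agent.PC

universe u

theorem NRA : NRA_stmt.{u} := by
  intro A _ _ h
  apply IsIntegrallyClosed.of_localization_maximal
  intro m _ hm
  have := h m
  exact inferInstance

end Pool.Agent.QS
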