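import Pool.Agent.helper51.QS.SpecA
import Pool.Agent.helper51.QS.Lib

/-! # MP_74cfa5, row PYY -/

set_option autoImplicit false

namespace Pool.Agent.QS

open Pool.Agent.PC

universe u

/-- the monomial does not contain the first `h` variables -/
def PYY_good {n : ℕ} (h : ℕ) (α : Fin n →₀ ℕ) : Prop := ∀ i : Fin n, (i : ℕ) < h → α i = 0

theorem PYY_good_add {n : ℕ} (h : ℕ) (α β : Fin n →₀ ℕ) :
    PYY_good h (α + β) ↔ PYY_good h α ∧ PYY_good h β := by
  constructor
  · intro H
    refine ⟨fun i hi => ?_, fun i hi => ?_⟩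
    · have := H i hi
      rw [Finsupp.add_apply] at this
      omega
    · have := H i hi
      rw [Finsupp.add_apply] at this
      omega
  · rintro ⟨h1, h2⟩ i hi
    rw [Finsupp.add_apply, h1 i hi, h2 i hi]

instance PYY_dec {n : ℕ} (h : ℕ) (α : Fin n →₀ ℕ) : Decidable (PYY_good h α) := by
  unfold PYY_good
  infer_instance

/-- setting the first `h` variables equal to zero -/
noncomputable def PYY_pi (k : Type u) [Field k] (n h : ℕ) :
    MvPowerSeries (Fin n) k →+* MvPowerSeries (Fin n) k where
  toFun F := fun α => if PYY_good h α then MvPowerSeries.coeff α F else 0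
  map_one' := by
    ext α
    show (if PYY_good h α then MvPowerSeries.coeff α (1 : MvPowerSeries (Fin n) k) else 0) = _
    split_ifs with h1
    · rfl
    · rw [MvPowerSeries.coeff_one, if_neg]
      rintro rfl
      exact h1 fun i _ => rfl
  map_mul' F G := by
    ext α
    show (if PYY_good h α then MvPowerSeries.coeff α (F * G) else 0) = _
    rw [MvPowerSeries.coeff_mul]
    split_ifs with h1
    · rw [MvPowerSeries.coeff_mul]
      apply Finset.sum_congr rfl
      intro p hp
      have h2 : p.1 + p.2 = α := by simpa using hp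
      rw [← h2, PYY_good_add] at h1
      show _ = (if PYY_good h p.1 then MvPowerSeries.coeff p.1 F else 0) *
        (if PYY_good h p.2 then MvPowerSeries.coeff p.2 G else 0)
      rw [if_pos h1.1, if_pos h1.2]
    · symm
      apply Finset.sum_eq_zero
      intro p hp
      have h2 : p.1 + p.2 = α := by simpa using hp
      rw [← h2, PYY_good_add] at h1
      show (if PYY_good h p.1 then MvPowerSeries.coeff p.1 F else 0) *
        (if PYY_good h p.2 then MvPowerSeries.coeff p.2 G else 0) = 0
      by_cases h3 : PYY_good h p.1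
      · have h4 : ¬ PYY_good h p.2 := fun h4 => h1 ⟨h3, h4⟩
        rw [if_neg h4, mul_zero]
      · rw [if_neg h3, zero_mul]
  map_zero' := by
    ext α
    show (if PYY_good h α then MvPowerSeries.coeff α (0 : MvPowerSeries (Fin n) k) else 0) = _
    split_ifs
    · rfl
    · rfl
  map_add' F G := by
    ext α
    show (if PYY_good h α then MvPowerSeries.coeff α (F + G) else 0) =
      (if PYY_good h α then MvPowerSeries.coeff α F else 0) +
        (if PYY_good h α then MvPowerSeries.coeff α G else 0)
    split_ifs
    · rw [map_add]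
    · rw [add_zero]

theorem PYY_pi_zero (k : Type u) [Field k] (n h : ℕ) (F : MvPowerSeries (Fin n) k) :
    PYY_pi k n h F = 0 ↔ ∀ α, PYY_good h α → MvPowerSeries.coeff α F = 0 := by
  classical
  constructor
  · intro h1 α hα
    have h2 := congrArg (MvPowerSeries.coeff α) h1
    have h3 : MvPowerSeries.coeff α (PYY_pi k n h F) = MvPowerSeries.coeff α F := by
      show (if PYY_good h α then MvPowerSeries.coeff α F else 0) = _
      rw [if_pos hα]
    rw [h3, map_zero] at h2
    exact h2
  · intro h1
    ext α
    show (if PYY_good h α then MvPowerSeries.coeff α F else 0) = _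
    split_ifs with h2
    · rw [h1 α h2, map_zero]
    · rw [map_zero]

theorem PYY_span (k : Type u) [Field k] (n : ℕ) : ∀ (h : ℕ) (F : MvPowerSeries (Fin n) k),
    (∀ α, PYY_good h α → MvPowerSeries.coeff α F = 0) →
    F ∈ Ideal.span {b : MvPowerSeries (Fin n) k | ∃ i : Fin n, (i : ℕ) < h ∧ b = MvPowerSeries.X i} := by
  classical
  intro h
  induction h with
  | zero =>
    intro F hF
    have h1 : F = 0 := by
      ext α
      rw [map_zero]
      exact hF α fun i hi => absurd hi (Nat.not_lt_zero _)
    rw [h1]
    exact Ideal.zero_mem _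
  | succ h ih =>
    intro F hF
    have hmono : Ideal.span {b : MvPowerSeries (Fin n) k | ∃ i : Fin n, (i : ℕ) < h ∧
        b = MvPowerSeries.X i} ≤
        Ideal.span {b : MvPowerSeries (Fin n) k | ∃ i : Fin n, (i : ℕ) < h + 1 ∧
        b = MvPowerSeries.X i} := by
      apply Ideal.span_mono
      rintro b ⟨i, hi, rfl⟩
      exact ⟨i, by omega, rfl⟩
    by_cases hn : h < n
    · set F' : MvPowerSeries (Fin n) k :=
        fun α => if α ⟨h, hn⟩ = 0 then MvPowerSeries.coeff α F else 0 with hF'
      have hc : ∀ α, MvPowerSeries.coeff α F' =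
          if α ⟨h, hn⟩ = 0 then MvPowerSeries.coeff α F else 0 := fun α => rfl
      have h1 : F' ∈ Ideal.span {b : MvPowerSeries (Fin n) k | ∃ i : Fin n, (i : ℕ) < h ∧
          b = MvPowerSeries.X i} := by
        apply ih
        intro α hα
        rw [hc]
        split_ifs with h2
        · apply hF
          intro i hi
          rcases Nat.lt_succ_iff_lt_or_eq.1 hi with h3 | h3
          · exact hα i h3
          · have : i = ⟨h, hn⟩ := Fin.ext h3
            rw [this]
            exact h2
        · rfl
      have h2 : (MvPowerSeries.X (⟨h, hn⟩ : Fin n) : MvPowerSeries (Fin n) k) ∣ F - F' := by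
        rw [MvPowerSeries.X_dvd_iff]
        intro α hα
        rw [map_sub, hc, if_pos hα, sub_self]
      obtain ⟨G, hG⟩ := h2
      have h3 : F = F' + MvPowerSeries.X (⟨h, hn⟩ : Fin n) * G := by rw [← hG]; ring
      rw [h3]
      refine Ideal.add_mem _ (hmono h1) (Ideal.mul_mem_right _ _ (Ideal.subset_span ?_))
      exact ⟨⟨h, hn⟩, Nat.lt_succ_self h, rfl⟩
    · apply hmono
      apply ih
      intro α hα
      apply hF
      intro i hi
      have := i.2
      exact hα i (by omega)

theorem PYY (hFFL : FFL_stmt.{u}) : PYY_stmt.{u} := by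
  intro k A _ _ _ _ n m hm y φ hT h
  set J : Ideal A := Ideal.span {b | ∃ i : Fin n, (i : ℕ) < h ∧ b = y i} with hJ
  have hmem : ∀ a : A, a ∈ RingHom.ker ((PYY_pi k n h).comp φ.toRingHom) ↔
      ∀ α : Fin n →₀ ℕ, PYY_good h α → MvPowerSeries.coeff α (φ a) = 0 := by
    intro a
    rw [RingHom.mem_ker, RingHom.comp_apply]
    exact PYY_pi_zero k n h (φ a)
  have hdom : IsDomain (MvPowerSeries (Fin n) k) := NoZeroDivisors.to_isDomain _
  have hprime : (RingHom.ker ((PYY_pi k n h).comp φ.toRingHom)).IsPrime := RingHom.ker_isPrime _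
  refine ⟨RingHom.ker ((PYY_pi k n h).comp φ.toRingHom), hprime, ?_, ?_, hmem⟩
  · intro a ha
    rw [hmem] at ha
    rw [Lib_mem hT]
    exact ha 0 fun i _ => rfl
  · intro a
    constructor
    · intro ha
      rw [hmem] at ha
      apply hFFL k A n m y φ hT J a
      have h1 := PYY_span k n h (φ a) ha
      have h2 : Ideal.span {b : MvPowerSeries (Fin n) k | ∃ i : Fin n, (i : ℕ) < h ∧
          b = MvPowerSeries.X i} ≤ J.map φ := by
        rw [Ideal.span_le]
        rintro b ⟨i, hi, rfl⟩
        rw [← hT.1 i]
        exact Ideal.mem_map_of_mem φ (Ideal.subset_span ⟨i, hi, rfl⟩)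
      exact h2 h1
    · rintro ⟨s, hs, h1⟩
      have hle : J ≤ RingHom.ker ((PYY_pi k n h).comp φ.toRingHom) := by
        rw [hJ, Ideal.span_le]
        rintro b ⟨i, hi, rfl⟩
        show y i ∈ RingHom.ker ((PYY_pi k n h).comp φ.toRingHom)
        rw [hmem, hT.1 i]
        intro α hα
        classical
        rw [MvPowerSeries.coeff_X, if_neg]
        rintro rfl
        have h2 := hα i hi
        rw [Finsupp.single_eq_same] at h2
        exact one_ne_zero h2
      rcases hprime.mem_or_mem (hle h1) with h2 | h2
      · exfalso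
        apply hs
        rw [Lib_mem hT]
        rw [hmem] at h2
        exact h2 0 fun i _ => rfl
      · exact h2

end Pool.Agent.QS
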