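import Pool.Agent.helper51.QS.SpecB
import Pool.Agent.helper51.QS.Lib

/-! # MP_74cfa5, row REG -/

set_option autoImplicit false

namespace Pool.Agent.QS

open Pool.Agent.PC

universe u

/-- one step of the regular sequence -/
theorem REG_step {k A : Type u} [Field k] [CommRing A] [Algebra k A] {n : ℕ}
    {m : Ideal A} {y : Fin n → A} {φ : A →ₐ[k] MvPowerSeries (Fin n) k} (hT : Taylor m y φ)
    (h : ℕ) (𝔮 J : Ideal A) (hq : 𝔮.IsPrime) (hJ : ∀ a, a ∈ 𝔮 ↔ Inn m J a) (hm : m ≠ ⊤)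
    (hc : ∀ a, a ∈ 𝔮 ↔ ∀ α : Fin n →₀ ℕ, (∀ i : Fin n, (i : ℕ) < h → α i = 0) →
      MvPowerSeries.coeff α (φ a) = 0) (j : Fin n) (hj : (j : ℕ) = h) (Q : Ideal A)
    (hQ : Q.IsPrime) (hQm : Q ≤ m) (x : A) (hx : Inn Q J (y j * x)) : Inn Q J x := by
  classical
  have hy : y j ∉ 𝔮 := by
    intro hy
    have h1 := (hc (y j)).1 hy (Finsupp.single j 1) (fun i hi => by
      rw [Finsupp.single_eq_of_ne]
      rintro rfl
      omega)
    rw [hT.1 j, MvPowerSeries.coeff_X, if_pos rfl] at h1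
    exact one_ne_zero h1
  obtain ⟨s, hs, h1⟩ := hx
  have h2 : s * (y j * x) ∈ 𝔮 := (hJ _).2 (Lib_inn_of_mem hm h1)
  have h3 : y j * (s * x) ∈ 𝔮 := by
    have : y j * (s * x) = s * (y j * x) := by ring
    rwa [this]
  have h4 := (hq.mem_or_mem h3).resolve_left hy
  obtain ⟨s', hs', h5⟩ := (hJ _).1 h4
  refine ⟨s' * s, fun h6 => ?_, by rwa [mul_assoc]⟩
  exact (hQ.mem_or_mem h6).elim (fun h7 => hs' (hQm h7)) hs

theorem REG (hPYY : PYY_stmt.{u}) : REG_stmt.{u} := by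
  intro k A _ _ _ _ _ n m hm y φ hT Q hQ hQm h3
  have hmt : m ≠ ⊤ := hm.ne_top
  refine ⟨?_, ?_, ?_⟩
  · intro h0
    have h1 := congrArg φ h0
    rw [hT.1, map_zero] at h1
    have h2 := congrArg (MvPowerSeries.coeff (Finsupp.single (⟨0, by omega⟩ : Fin n) 1)) h1
    classical
    rw [MvPowerSeries.coeff_X, if_pos rfl, map_zero] at h2
    exact one_ne_zero h2
  · intro x hx
    obtain ⟨𝔮, hq, _, h1, h2⟩ := hPYY k A n m y φ hT 1
    have e : {b | ∃ i : Fin n, (i : ℕ) < 1 ∧ b = y i} = {y ⟨0, by omega⟩} := by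
      ext b
      simp only [Set.mem_ofPred_eq, Set.mem_singleton_iff]
      constructor
      · rintro ⟨i, hi, rfl⟩
        congr 1
        apply Fin.ext
        show (i : ℕ) = 0
        omega
      · rintro rfl
        exact ⟨⟨0, by omega⟩, by simp, rfl⟩
    rw [e] at h1
    exact REG_step hT 1 𝔮 _ hq h1 hmt h2 ⟨1, by omega⟩ rfl Q hQ hQm x hx
  · intro x hx
    obtain ⟨𝔮, hq, _, h1, h2⟩ := hPYY k A n m y φ hT 2
    have e : {b | ∃ i : Fin n, (i : ℕ) < 2 ∧ b = y i} = {y ⟨0, by omega⟩, y ⟨1, by omega⟩} := by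
      ext b
      simp only [Set.mem_ofPred_eq, Set.mem_insert_iff, Set.mem_singleton_iff]
      constructor
      · rintro ⟨i, hi, rfl⟩
        have hi2 : (i : ℕ) = 0 ∨ (i : ℕ) = 1 := by omega
        rcases hi2 with h4 | h4
        · left
          congr 1
          exact Fin.ext h4
        · right
          congr 1
          exact Fin.ext h4
      · rintro (rfl | rfl)
        · exact ⟨⟨0, by omega⟩, by simp, rfl⟩
        · exact ⟨⟨1, by omega⟩, by simp, rfl⟩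
    rw [e] at h1
    exact REG_step hT 2 𝔮 _ hq h1 hmt h2 ⟨2, by omega⟩ rfl Q hQ hQm x hx

end Pool.Agent.QS
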