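import Pool.Agent.helper51.QS.SpecC

/-! # MP_74cfa5, row SML -/

set_option autoImplicit false

namespace Pool.Agent.QS

open Pool.Agent.PC

universe u

/-- one half of the equality of dimensions (as in `Pool/Agent/helper31/PC/DIM.lean`) -/
theorem SML_dim {R S : Type u} [CommRing R] [CommRing S] [Algebra R S] [Algebra.IsIntegral R S]
    (hinj : Function.Injective (algebraMap R S)) : ringKrullDim R ≤ ringKrullDim S := by
  unfold ringKrullDim
  apply iSup_le
  intro l
  obtain ⟨P, _, hP, hPc⟩ := Ideal.exists_ideal_over_prime_of_isIntegral (S := S) l.head.asIdeal ⊥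
    (by
      rw [← RingHom.ker_eq_comap_bot, (RingHom.injective_iff_ker_eq_bot _).1 hinj]
      exact bot_le)
  have : P.LiesOver l.head.asIdeal := ⟨hPc.symm⟩
  obtain ⟨L, hL, _, _⟩ := Ideal.exists_ltSeries_of_hasGoingUp l P
  rw [← hL]
  exact Order.LTSeries.length_le_krullDim L

theorem SML : SML_stmt.{u} := by
  intro R A _ _ _ _ _ _ _ hdim S hS hS1
  have hR : ringKrullDim R ≤ 1 := (SML_dim (FaithfulSMul.algebraMap_injective R A)).trans hdim
  obtain ⟨M, hM, hSM⟩ := Ideal.exists_le_maximal S hS.ne_top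
  have hMS : S = M := by
    by_contra hne
    have hlt : S < M := lt_of_le_of_ne hSM hne
    have h1 : S.height + 1 ≤ M.height := Ideal.height_add_one_le_of_lt_of_isPrime hlt
    have h2 : (M.height : WithBot ℕ∞) ≤ ringKrullDim R :=
      Ideal.height_le_ringKrullDim_of_ne_top hM.ne_top
    rw [hS1] at h1
    have h3 : ((1 + 1 : ℕ∞) : WithBot ℕ∞) ≤ ((1 : ℕ∞) : WithBot ℕ∞) :=
      ((WithBot.coe_le_coe.2 h1).trans h2).trans hR
    have h4 := WithBot.coe_le_coe.1 h3
    exact absurd h4 (by decide)
  rw [hMS]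
  let := Ideal.Quotient.field M
  exact inferInstance

end Pool.Agent.QS
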