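import Pool.Agent.helper51.QS.SpecB

/-! # MP_74cfa5, row TBF -/

set_option autoImplicit false

namespace Pool.Agent.QS

open Pool.Agent.PC

universe u

theorem TBF : TBF_stmt.{u} := by
  intro k F K _ _ _ _ _ _ _ _ n x hx
  obtain ⟨s, hs⟩ := exists_isTranscendenceBasis k F
  have h1 : IsTranscendenceBasis k (algebraMap F K ∘ ((↑) : s → F)) := hs.algebraMap_comp (A := K)
  have h2 := h1.lift_cardinalMk_eq hx
  obtain ⟨e⟩ := Cardinal.lift_mk_eq'.1 h2
  refine ⟨((↑) : s → F) ∘ e.symm, ?_⟩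
  exact (isTranscendenceBasis_equiv e.symm).2 hs

end Pool.Agent.QS
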