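import Pool.Agent.helper51.QS.SpecB

/-! # MP_74cfa5, row UNM -/

set_option autoImplicit false

namespace Pool.Agent.QS

open Pool.Agent.PC

universe u

theorem UNM : UNM_stmt.{u} := by
  intro L _ _ s t z q0 q1 q2 ht hst hq0 h01 h012 hz0 hz1 hz2
  obtain ⟨a0, b0, e0⟩ := Ideal.mem_span_pair.1 hz0
  obtain ⟨a1, b1, e1⟩ := Ideal.mem_span_pair.1 hz1
  obtain ⟨a2, b2, e2⟩ := Ideal.mem_span_pair.1 hz2
  -- the minors
  have key : ∀ (q q' a a' b b' : L), a * s + b * t = z * q → a' * s + b' * t = z * q' →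
      ∃ g : L, a * q' - a' * q = g * t ∧ b * q' - b' * q = -(g * s) := by
    intro q q' a a' b b' h1 h2
    have h3 : t ∣ s * (a * q' - a' * q) := by
      refine ⟨-(b * q' - b' * q), ?_⟩
      linear_combination q' * h1 - q * h2
    obtain ⟨g, hg⟩ := hst _ h3
    refine ⟨g, by rw [hg]; ring, ?_⟩
    apply mul_left_cancel₀ ht
    linear_combination q' * h1 - q * h2 - s * hg
  obtain ⟨g01, h1, h2⟩ := key q0 q1 a0 a1 b0 b1 e0 e1
  obtain ⟨g02, h3, _⟩ := key q0 q2 a0 a2 b0 b2 e0 e2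
  obtain ⟨g12, h4, _⟩ := key q1 q2 a1 a2 b1 b2 e1 e2
  have h5 : q2 * g01 = g02 * q1 - g12 * q0 := by
    apply mul_left_cancel₀ ht
    linear_combination (-q2) * h1 + q1 * h3 - q0 * h4
  have h6 : g01 ∈ Ideal.span {q0, q1} := by
    apply h012
    rw [h5, Ideal.mem_span_pair]
    exact ⟨-g12, g02, by ring⟩
  obtain ⟨l, κ, h7⟩ := Ideal.mem_span_pair.1 h6
  have h8 : q0 ∣ q1 * (a0 - κ * t) := by
    refine ⟨a1 + l * t, ?_⟩
    linear_combination h1 - t * h7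
  have h9 : q0 ∣ q1 * (b0 + κ * s) := by
    refine ⟨b1 - l * s, ?_⟩
    linear_combination h2 + s * h7
  obtain ⟨ε, h10⟩ := h01 _ h8
  obtain ⟨ε', h11⟩ := h01 _ h9
  rw [Ideal.mem_span_pair]
  refine ⟨ε, ε', ?_⟩
  apply mul_left_cancel₀ hq0
  linear_combination e0 - s * h10 - t * h11

end Pool.Agent.QS
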