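import Pool.Agent.helper51.QS.SpecA
import Pool.Agent.helper51.QS.Lib

/-! # MP_74cfa5, row YWV -/

set_option autoImplicit false

namespace Pool.Agent.QS

open Pool.Agent.PC

universe u

section

variable {k A K : Type u} [Field k] [CommRing A] [Algebra k A] [Field K] [Algebra A K] {n : ℕ}
  {φ : A →ₐ[k] MvPowerSeries (Fin n) k} {w : Fin n → ℕ} {v : K → ℤ}

/-- a nonzero coefficient bounds the value -/
theorem YWV_le (hW : IsW φ w v) (a : A) (α : Fin n →₀ ℕ) (h : MvPowerSeries.coeff α (φ a) ≠ 0) :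
    algebraMap A K a ≠ 0 ∧ v (algebraMap A K a) ≤ (Finsupp.weight w α : ℕ) := by
  have h1 : ¬ Ge v ((Finsupp.weight w α + 1 : ℕ) : ℤ) (algebraMap A K a) := by
    intro hg
    exact h ((hW.2 a _).1 hg α (Nat.lt_succ_self _))
  unfold Ge at h1
  push Not at h1
  refine ⟨h1.1, ?_⟩
  have h2 := h1.2
  push_cast at h2
  omega

theorem YWV_zero (hW : IsW φ w v) (a : A) (h : MvPowerSeries.coeff (0 : Fin n →₀ ℕ) (φ a) ≠ 0) :
    v (algebraMap A K a) = 0 := by
  obtain ⟨h1, h2⟩ := YWV_le hW a 0 h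
  rw [map_zero] at h2
  have h3 := (Lib_W0 hW a).resolve_left h1
  have h4 : ((0 : ℕ) : ℤ) = 0 := rfl
  omega

end

theorem YWV : YWV_stmt.{u} := by
  intro k A K _ _ _ _ _ _ _ _ _ n m _ y φ hT w v hW
  refine ⟨fun i => ?_, fun c hc => ?_, fun a => Lib_W0 hW a, fun a ha => ?_, fun c hc N a ha => ?_⟩
  · obtain ⟨h1, h2⟩ := YWV_le hW (y i) (Finsupp.single i 1) (by
      rw [hT.1 i, MvPowerSeries.coeff_X, if_pos rfl]
      exact one_ne_zero)
    refine ⟨h1, ?_⟩
    have h3 := (Lib_Wy hT hW i).resolve_left h1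
    rw [Finsupp.weight_single, one_smul] at h2
    exact le_antisymm h2 h3
  · rw [IsScalarTower.algebraMap_apply k A K]
    apply YWV_zero hW
    rw [AlgHom.commutes, MvPowerSeries.algebraMap_apply]
    simpa using hc
  · apply YWV_zero hW
    intro h
    exact ha ((Lib_mem hT a).2 h)
  · exact Lib_WN hT hW c hc N a ha

end Pool.Agent.QS
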