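import Pool.Agent.helper32.QS.Spec

set_option autoImplicit false

namespace QS

open scoped BigOperators commutatorElement

theorem FS1_indep {k U : Type} [Field k] [AddCommGroup U] [Module k U] [FiniteDimensional k U]
    (W T : U →ₗ[k] U) (hT : Function.Injective T) (c : k) (m : ℕ)
    (hc : ∀ i < m, ∀ j < m, c ^ i = c ^ j → i = j) (hWT : ∀ u, W (T u) = c • T (W u))
    (D : Submodule k U) (hD : ∀ u ∈ D, W u = u) : m * Module.finrank k D ≤ Module.finrank k U := by
  have h1 : ∀ (i : ℕ) (u : U), W ((T ^ i) u) = c ^ i • (T ^ i) (W u) := by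
    intro i
    induction i with
    | zero => intro u; simp
    | succ i ih =>
      intro u
      rw [pow_succ', Module.End.mul_apply, hWT, ih, map_smul, smul_smul, Module.End.mul_apply, pow_succ']
  let Φ : (Fin m → D) →ₗ[k] U := ∑ i : Fin m, ((T ^ (i : ℕ)) ∘ₗ D.subtype) ∘ₗ LinearMap.proj i
  have hΦ : ∀ f, Φ f = ∑ i : Fin m, (T ^ (i : ℕ)) (f i : U) := by
    intro f
    simp [Φ, LinearMap.sum_apply]
  have hind : iSupIndep (fun i : Fin m => Module.End.eigenspace W (c ^ (i : ℕ))) := by
    apply (Module.End.eigenspaces_iSupIndep W).comp (f := fun i : Fin m => c ^ (i : ℕ))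
    intro i j hij
    exact Fin.ext (hc _ i.2 _ j.2 hij)
  have hinj : Function.Injective Φ := by
    rw [injective_iff_map_eq_zero]
    intro f hf
    rw [hΦ] at hf
    have h2 := (iSupIndep_iff_finsetSum_eq_zero_imp_eq_zero _).1 hind Finset.univ
      (fun i => (T ^ (i : ℕ)) (f i : U)) (fun i _ => by
        rw [Module.End.mem_eigenspace_iff, h1, hD _ (f i).2]) hf
    funext i
    have h3 := h2 i (Finset.mem_univ i)
    have h4 : Function.Injective (T ^ (i : ℕ)) := by
      rw [Module.End.coe_pow]
      exact hT.iterate _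
    have h5 : (f i : U) = 0 := h4 (by rw [map_zero]; exact h3)
    exact Subtype.ext h5
  have h6 := LinearMap.finrank_le_finrank_of_injective hinj
  rw [Module.finrank_pi_fintype, Finset.sum_const, Finset.card_univ, Fintype.card_fin, smul_eq_mul] at h6
  exact h6

theorem FS1 : FS1_stmt := by
  intro k U H _ _ _ _ _ _ _ _ hSL w hw t ht hwt m hm
  have : Module.Finite k U := Module.Finite.of_finite
  obtain ⟨c, hc⟩ := hwt
  let W : U →ₗ[k] U :=
    { toFun := fun u => w • u
      map_add' := fun a b => smul_add w a b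
      map_smul' := fun a u => hw a u }
  let T : U →ₗ[k] U :=
    { toFun := fun u => t • u
      map_add' := fun a b => smul_add t a b
      map_smul' := fun a u => ht a u }
  have hTi : Function.Injective T := MulAction.injective t
  let D : Submodule k U := LinearMap.ker (W - LinearMap.id)
  have hD : ∀ u, u ∈ D ↔ w • u = u := by
    intro u
    rw [LinearMap.mem_ker, LinearMap.sub_apply, sub_eq_zero]
    rfl
  have hWT : ∀ u, W (T u) = (c : k) • T (W u) := by
    intro u
    have h1 := hc (t • w • u)
    have h2 : ⁅w, t⁆ • (t • w • u) = w • t • u := by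
      rw [commutatorElement_def, ← mul_smul, ← mul_smul, ← mul_smul]
      congr 1
      group
    rw [h2] at h1
    exact h1
  have hpow : ∀ (j : ℕ) (u : U), (⁅w, t⁆ ^ j) • u = ((c : k) ^ j) • u := by
    intro j
    induction j with
    | zero => intro u; simp
    | succ j ih =>
      intro u
      rw [pow_succ', mul_smul, ih, hc, smul_smul, pow_succ']
  have hdist : ∀ i < m, ∀ j < m, (c : k) ^ i = (c : k) ^ j → i = j := by
    intro i hi j hj hij
    have h1 : ⁅w, t⁆ ^ i = ⁅w, t⁆ ^ j := by
      have h2 : (⁅w, t⁆ ^ j)⁻¹ * ⁅w, t⁆ ^ i = 1 := by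
        apply hSL.faith
        intro u
        rw [mul_smul, hpow i, hij, ← hpow j, inv_smul_smul]
      exact (inv_mul_eq_one.1 h2).symm
    exact pow_injOn_Iio_orderOf (Set.mem_Iio.2 (lt_of_lt_of_le hi hm))
      (Set.mem_Iio.2 (lt_of_lt_of_le hj hm)) h1
  refine ⟨Module.finrank k D, FS1_indep W T hTi c m hdist hWT D (fun u hu => (hD u).1 hu), ?_⟩
  rw [← Module.natCard_eq_pow_finrank (K := k) (V := D)]
  apply Nat.card_congr
  exact Equiv.subtypeEquivRight (fun u => (hD u).symm)

end QS
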