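import Pool.Agent.helper32.QS.Spec

set_option autoImplicit false

namespace QS

open scoped BigOperators commutatorElement

theorem GVN_step (hTWO : TWO_stmt) (G : Type) [Group G] [Finite G] (p : ℕ) (hp : p.Prime) (h5 : 5 ≤ p)
    (hs : Group.IsSolvable G) (M : Subgroup G) (hMn : M.Normal) (hab : ∀ x ∈ M, ∀ y ∈ M, x * y = y * x)
    (hM0 : M ≠ ⊥) (hmin : ∀ L : Subgroup G, L.Normal → L ≤ M → L = ⊥ ∨ L = M) (hpM : ¬ p ∣ Nat.card M) :
    ∃ m ∈ M, ∀ x y : G, Heis p x y → x * m = m * x → y * m = m * y → ∀ a ∈ M, ⁅x, y⁆ * a = a * ⁅x, y⁆ := by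
  let cg : CommGroup M := { (inferInstance : Group M) with
    mul_comm := fun a b => Subtype.ext (hab a.1 a.2 b.1 b.2) }
  let ρ : G →* MulAut M := MulAut.conjNormal
  have hρ : ∀ (g : G) (m : M), ((ρ g m : M) : G) = g * m * g⁻¹ := fun g m => MulAut.conjNormal_apply g m
  let act : DistribMulAction ρ.range (Additive M) :=
    { smul := fun h v => Additive.ofMul ((h : MulAut M) v.toMul)
      one_smul := fun v => rfl
      mul_smul := fun a b v => rfl
      smul_zero := fun a => by
        show Additive.ofMul ((a : MulAut M) 1) = 0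
        rw [map_one]; rfl
      smul_add := fun a v w => by
        show Additive.ofMul ((a : MulAut M) (v.toMul * w.toMul)) = _
        rw [map_mul]; rfl }
  have hact : ∀ (h : ρ.range) (v : Additive M), h • v = Additive.ofMul ((h : MulAut M) v.toMul) := fun _ _ => rfl
  have : Finite ρ.range := Finite.of_surjective ρ.rangeRestrict ρ.rangeRestrict_surjective
  have : Finite (Additive M) := inferInstanceAs (Finite M)
  have hnt : Nontrivial (Additive M) := by
    have : Nontrivial M := (Subgroup.nontrivial_iff_ne_bot M).2 hM0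
    exact inferInstanceAs (Nontrivial M)
  have hsol : Group.IsSolvable ρ.range := by
    have := hs
    exact Group.isSolvable_of_surjective ρ.rangeRestrict_surjective
  have hfai : Fai ρ.range (Additive M) := by
    intro h hh
    apply Subtype.ext
    apply MulEquiv.ext
    intro m
    exact hh (Additive.ofMul m)
  have hirr : Irr ρ.range (Additive M) := by
    intro W hW
    let L : Subgroup G :=
      { carrier := {g | ∃ h : g ∈ M, Additive.ofMul (⟨g, h⟩ : M) ∈ W}
        one_mem' := ⟨M.one_mem, W.zero_mem⟩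
        mul_mem' := by
          rintro a b ⟨ha, ha'⟩ ⟨hb, hb'⟩
          exact ⟨M.mul_mem ha hb, W.add_mem ha' hb'⟩
        inv_mem' := by
          rintro a ⟨ha, ha'⟩
          exact ⟨M.inv_mem ha, W.neg_mem ha'⟩ }
    have hLn : L.Normal := by
      constructor
      rintro a ⟨ha, ha'⟩ g
      refine ⟨hMn.conj_mem a ha g, ?_⟩
      have h1 := hW ⟨ρ g, g, rfl⟩ _ ha'
      rw [hact] at h1
      convert h1 using 2
      exact Subtype.ext (hρ g ⟨a, ha⟩).symm
    have hLM : L ≤ M := by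
      rintro a ⟨ha, -⟩
      exact ha
    rcases hmin L hLn hLM with h | h
    · left
      rw [eq_bot_iff]
      intro v hv
      have h1 : ((v.toMul : M) : G) ∈ L := ⟨v.toMul.2, hv⟩
      rw [h, Subgroup.mem_bot] at h1
      have h2 : (v.toMul : M) = 1 := Subtype.ext h1
      rw [AddSubgroup.mem_bot]
      exact h2
    · right
      rw [eq_top_iff]
      intro v _
      have h1 : ((v.toMul : M) : G) ∈ L := by
        rw [h]
        exact v.toMul.2
      obtain ⟨h2, h3⟩ := h1
      exact h3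
  have hpV : ¬ p ∣ Nat.card (Additive M) := hpM
  obtain ⟨v, -, hv, -, -⟩ := hTWO p hp h5 (Nat.card (Additive M) + 1) (Additive M) ρ.range (Nat.lt_succ_self _) hnt hsol hfai hirr hpV
  refine ⟨(v.toMul : M), v.toMul.2, ?_⟩
  intro x y hxy hx hy a ha
  set X := ρ.rangeRestrict x with hX
  set Y := ρ.rangeRestrict y with hY
  have hfix : ∀ z : G, z * (v.toMul : M) = (v.toMul : M) * z → ρ.rangeRestrict z • v = v := by
    intro z hz
    rw [hact]
    have h1 : (ρ z) v.toMul = v.toMul := by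
      apply Subtype.ext
      rw [hρ, hz, mul_inv_cancel_right]
    show Additive.ofMul ((ρ z) v.toMul) = v
    rw [h1]
    rfl
  have hXY : ⁅X, Y⁆ = ρ.rangeRestrict ⁅x, y⁆ := (map_commutatorElement ρ.rangeRestrict x y).symm
  have h1 : ρ.rangeRestrict ⁅x, y⁆ = 1 := by
    by_contra hne
    obtain ⟨a1, a2, a3, a4, a5⟩ := hxy
    apply hv X Y ⟨?_, ?_, ?_, ?_, ?_⟩ (hfix x hx) (hfix y hy)
    · rw [hX, ← map_pow, a1, map_one]
    · rw [hY, ← map_pow, a2, map_one]
    · rw [hXY]; exact hne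
    · rw [hXY, hX, ← map_mul, a4, map_mul]
    · rw [hXY, hY, ← map_mul, a5, map_mul]
  have h2 : (ρ ⁅x, y⁆) ⟨a, ha⟩ = ⟨a, ha⟩ := by
    have h3 : ρ ⁅x, y⁆ = 1 := congrArg Subtype.val h1
    rw [h3]
    rfl
  have h4 := congrArg Subtype.val h2
  rw [hρ] at h4
  exact mul_inv_eq_iff_eq_mul.1 h4

theorem GVN (hTWO : TWO_stmt) : GVN_stmt := by
  intro G _ _ p hp h5 hs N hN hab hpN hcr
  have key : ∀ L : Subgroup G, L.Normal → L ≤ N →
      ∃ g ∈ L, ∀ x y : G, Heis p x y → x * g = g * x → y * g = g * y → ∀ a ∈ L, ⁅x, y⁆ * a = a * ⁅x, y⁆ := by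
    intro L
    induction L using WellFoundedLT.induction with
    | ind L ih =>
    intro hL hLN
    by_cases hL0 : L = ⊥
    · refine ⟨1, L.one_mem, ?_⟩
      intro x y _ _ _ a ha
      rw [hL0, Subgroup.mem_bot] at ha
      rw [ha, mul_one, one_mul]
    obtain ⟨M, ⟨hM1, hM2, hM3⟩, hM4⟩ := (wellFounded_lt (α := Subgroup G)).has_min
      {M : Subgroup G | M.Normal ∧ M ≠ ⊥ ∧ M ≤ L} ⟨L, hL, hL0, le_rfl⟩
    have hmin : ∀ K : Subgroup G, K.Normal → K ≤ M → K = ⊥ ∨ K = M := by
      intro K hK hKM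
      by_cases hK0 : K = ⊥
      · exact Or.inl hK0
      · right
        have h1 := hM4 K ⟨hK, hK0, hKM.trans hM3⟩
        exact eq_of_le_of_not_lt hKM h1
    have hMN : M ≤ N := hM3.trans hLN
    obtain ⟨D, hD1, hD2, hD3, hD4⟩ := hcr M hM1 hM2 hMN hmin
    have hpM : ¬ p ∣ Nat.card M := fun h => hpN (h.trans (Subgroup.card_dvd_of_le hMN))
    obtain ⟨m, hm, hm'⟩ := GVN_step hTWO G p hp h5 hs M hM1 (fun x hx y hy => hab x (hMN hx) y (hMN hy)) hM2 hmin hpM
    have hLDn : (L ⊓ D).Normal := Subgroup.normal_inf_normal L D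
    have hlt : L ⊓ D < L := by
      refine lt_of_le_of_ne inf_le_left ?_
      intro h
      apply hM2
      rw [← hD3]
      apply le_antisymm _ inf_le_left
      refine le_inf le_rfl ?_
      exact hM3.trans (by rw [← h]; exact inf_le_right)
    obtain ⟨g', hg', hg''⟩ := ih (L ⊓ D) hlt hLDn (inf_le_left.trans hLN)
    have hcomm : ∀ x : G, x * (m * g') = (m * g') * x → x * m = m * x ∧ x * g' = g' * x := by
      intro x hx
      have h1 : x * m * x⁻¹ ∈ M := hM1.conj_mem m hm x
      have h2 : x * g' * x⁻¹ ∈ L ⊓ D := hLDn.conj_mem g' hg' x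
      have h3 : m⁻¹ * (x * m * x⁻¹) = g' * (x * g' * x⁻¹)⁻¹ := by
        have : x * m * x⁻¹ * (x * g' * x⁻¹) = m * g' := by
          calc x * m * x⁻¹ * (x * g' * x⁻¹) = x * (m * g') * x⁻¹ := by group
            _ = m * g' := by rw [hx]; group
        rw [inv_mul_eq_iff_eq_mul, ← mul_assoc, ← this]
        group
      have h4 : m⁻¹ * (x * m * x⁻¹) ∈ M ⊓ D := by
        constructor
        · exact M.mul_mem (M.inv_mem hm) h1
        · rw [h3]
          exact D.mul_mem hg'.2 (D.inv_mem h2.2)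
      rw [hD3, Subgroup.mem_bot] at h4
      have h5 := h4
      rw [h3] at h5
      constructor
      · rw [inv_mul_eq_one] at h4
        exact (mul_inv_eq_iff_eq_mul.1 h4.symm)
      · rw [mul_inv_eq_one] at h5
        exact (mul_inv_eq_iff_eq_mul.1 h5.symm)
    refine ⟨m * g', L.mul_mem (hM3 hm) hg'.1, ?_⟩
    intro x y hxy hx hy a ha
    obtain ⟨x1, x2⟩ := hcomm x hx
    obtain ⟨y1, y2⟩ := hcomm y hy
    have haN : a ∈ M ⊔ D := by
      rw [hD4]
      exact hLN ha
    have := hD1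
    obtain ⟨b, hb, d, hd, rfl⟩ := Subgroup.mem_sup_of_normal_right.1 haN
    have hdL : d ∈ L := by
      have := L.mul_mem (L.inv_mem (hM3 hb)) ha
      rwa [inv_mul_cancel_left] at this
    have e1 := hm' x y hxy x1 y1 b hb
    have e2 := hg'' x y hxy x2 y2 d ⟨hdL, hd⟩
    rw [← mul_assoc, e1, mul_assoc, e2, mul_assoc]
  exact key N hN le_rfl

end QS
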